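import Pool.Agent.H71.CW.Wid

/-!
Row W2 of the board `cwf_modules`: splitting nodes of decomposition trees.
-/

set_option autoImplicit false

open Set

namespace Pool.Agent.CW

theorem pf_W2 : W2 := by
  intro c k W P hP
  induction hP with
  | sing x hx =>
    intro Y hY h2
    have h1 := Finset.card_le_card hY
    rw [Finset.card_singleton] at h1
    omega
  | join A B hA hB hd hf ihA ihB =>
    intro Y hY h2
    by_cases hYA : Y ⊆ A
    · obtain ⟨A', B', h3, h4, h5, h6, h7, h8⟩ := ihA Y hYA h2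
      exact ⟨A', B', h3, h4, h5, h6, h7.trans Finset.subset_union_left, h8⟩
    by_cases hYB : Y ⊆ B
    · obtain ⟨A', B', h3, h4, h5, h6, h7, h8⟩ := ihB Y hYB h2
      exact ⟨A', B', h3, h4, h5, h6, h7.trans Finset.subset_union_right, h8⟩
    refine ⟨A, B, hA, hB, MW.join A B hA hB hd hf, hd, le_refl _, hY, ?_, ?_⟩
    · obtain ⟨y, hy, hyB⟩ := Finset.not_subset.1 hYB
      have := hY hy
      rw [Finset.mem_union] at this
      exact ⟨y, Finset.mem_inter.2 ⟨hy, this.resolve_right hyB⟩⟩
    · obtain ⟨y, hy, hyA⟩ := Finset.not_subset.1 hYA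
      have := hY hy
      rw [Finset.mem_union] at this
      exact ⟨y, Finset.mem_inter.2 ⟨hy, this.resolve_left hyA⟩⟩

end Pool.Agent.CW
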