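import Pool.Agent.H71.CW.Wid

/-!
Row WMS of the board `cwf_modules`: bounded width is a measurable condition.
-/

set_option autoImplicit false

open Set

namespace Pool.Agent.CW

private theorem h60_sub {c : ℕ → ℕ → ℕ} {k : ℕ} {W A : Finset ℕ} (h : MW c k W A) : A ⊆ W := by
  induction h with
  | sing x hx => exact Finset.singleton_subset_iff.2 hx
  | join A B hA hB hd hf ihA ihB => exact Finset.union_subset ihA ihB

private theorem h60_congr {c c' : ℕ → ℕ → ℕ} {k : ℕ} {W A : Finset ℕ}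
    (hc : ∀ x ∈ W, ∀ y ∈ W, c x y = c' x y) (h : MW c k W A) : MW c' k W A := by
  induction h with
  | sing x hx => exact MW.sing x hx
  | join A B hA hB hd hf ihA ihB =>
    refine MW.join A B ihA ihB hd ?_
    obtain ⟨f, hf⟩ := hf
    refine ⟨f, fun a ha a' ha' hff z hz => ?_⟩
    have h1 := hf a ha a' ha' hff z hz
    have hAB : A ∪ B ⊆ W := Finset.union_subset (h60_sub hA) (h60_sub hB)
    have ha1 : a ∈ W := hAB ha
    have ha2 : a' ∈ W := hAB ha'
    have hz1 : z ∈ W := hz.1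
    unfold ee at h1 ⊢
    rw [← hc a ha1 z hz1, ← hc z hz1 a ha1, ← hc a' ha2 z hz1, ← hc z hz1 a' ha2]
    exact h1

theorem pf_WMS : WMS := by
  intro k
  have h1 : {c : ℕ → ℕ → ℕ | Wd c k} =
      ⋂ W : Finset ℕ, {c : ℕ → ℕ → ℕ | W.Nonempty → MW c k W W} := by
    ext c
    simp only [mem_setOf_eq, mem_iInter]
    rfl
  rw [h1]
  refine MeasurableSet.iInter fun W => ?_
  have hm : Measurable (fun (c : ℕ → ℕ → ℕ) (x y : W) => c x y) := by
    refine measurable_pi_iff.2 fun x => measurable_pi_iff.2 fun y => ?_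
    exact (measurable_pi_apply (y : ℕ)).comp (measurable_pi_apply (x : ℕ))
  have h2 : {c : ℕ → ℕ → ℕ | W.Nonempty → MW c k W W} =
      (fun (c : ℕ → ℕ → ℕ) (x y : W) => c x y) ⁻¹'
        ((fun (c : ℕ → ℕ → ℕ) (x y : W) => c x y) '' {c | W.Nonempty → MW c k W W}) := by
    refine Set.Subset.antisymm (Set.subset_preimage_image _ _) ?_
    rintro c ⟨c', hc', he⟩ hW
    refine h60_congr (fun x hx y hy => ?_) (hc' hW)
    exact congrFun (congrFun he ⟨x, hx⟩) ⟨y, hy⟩
  rw [h2]
  exact hm (Set.to_countable _).measurableSet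

end Pool.Agent.CW
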